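import Pool.Agent.W353.ST.Rep

/-! Orthogonality relations for unitary representations of compact groups. -/

set_option autoImplicit false

namespace Pool.Agent.W353.ST

open MeasureTheory Matrix Filter Topology

theorem single_entry {n : ℕ} (U V : Matrix (Fin n) (Fin n) ℂ) (i j : Fin n) :
    (U * (Matrix.single i j 1 : Matrix (Fin n) (Fin n) ℂ) * V) i j = U i i * V j j := by
  classical
  rw [Matrix.mul_apply, Finset.sum_eq_single j]
  · rw [Matrix.mul_apply, Finset.sum_eq_single i]
    · simp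
    · intro b _ hb
      simp [Ne.symm hb]
    · simp
  · intro b _ hb
    rw [Matrix.mul_apply, Finset.sum_eq_zero, zero_mul]
    intro a _
    simp [Ne.symm hb]
  · simp

section
variable {G : Type} [Group G] {n : ℕ}

variable (r : G →* unitaryGroup (Fin n) ℂ)

theorem rep_apply (g : G) (x : Fin n → ℂ) :
    rep r g x = (r g : Matrix (Fin n) (Fin n) ℂ) *ᵥ x := Matrix.toLin'_apply _ _

theorem char_rep (g : G) : (rep r).character g = (r g : Matrix (Fin n) (Fin n) ℂ).trace := by
  unfold Representation.character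
  change LinearMap.trace ℂ _ (Matrix.toLin' (r g : Matrix (Fin n) (Fin n) ℂ)) = _
  exact Matrix.trace_toLin'_eq _

theorem r_inv (g : G) : ((r g⁻¹ : unitaryGroup (Fin n) ℂ) : Matrix (Fin n) (Fin n) ℂ) =
    (r g : Matrix (Fin n) (Fin n) ℂ)ᴴ := by
  rw [map_inv]
  rfl

theorem r_mul_star (g : G) : (r g : Matrix (Fin n) (Fin n) ℂ) *
    (r g : Matrix (Fin n) (Fin n) ℂ)ᴴ = 1 := by
  have := (r g).2
  exact (Matrix.mem_unitaryGroup_iff).1 this

theorem star_mul_r (g : G) : (r g : Matrix (Fin n) (Fin n) ℂ)ᴴ *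
    (r g : Matrix (Fin n) (Fin n) ℂ) = 1 := by
  have := (r g).2
  exact (Matrix.mem_unitaryGroup_iff').1 this

/-- a matrix that commutes with an irreducible representation is a scalar -/
theorem schur (hirr : (rep r).IsIrreducible) (M : Matrix (Fin n) (Fin n) ℂ)
    (hM : ∀ g, (r g : Matrix (Fin n) (Fin n) ℂ) * M = M * (r g : Matrix (Fin n) (Fin n) ℂ)) :
    ∃ c : ℂ, M = c • (1 : Matrix (Fin n) (Fin n) ℂ) := by
  let f : (rep r).IntertwiningMap (rep r) :=
    { toLinearMap := Matrix.toLin' M
      isIntertwining' := by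
        intro g
        apply LinearMap.ext
        intro x
        change Matrix.toLin' M (rep r g x) = rep r g (Matrix.toLin' M x)
        rw [rep_apply, rep_apply, Matrix.toLin'_apply, Matrix.toLin'_apply, Matrix.mulVec_mulVec,
          Matrix.mulVec_mulVec, hM] }
  obtain ⟨c, hc⟩ := (Representation.IsIrreducible.algebraMap_intertwiningMap_bijective_of_isAlgClosed
    (ρ := rep r)).2 f
  refine ⟨c, ?_⟩
  apply Matrix.toLin'.injective
  apply LinearMap.ext
  intro x
  have h1 : f x = (algebraMap ℂ ((rep r).IntertwiningMap (rep r)) c) x := by rw [hc]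
  have h2 : f x = Matrix.toLin' M x := rfl
  rw [← h2, h1, map_smul, Matrix.toLin'_one]
  rfl

theorem dim_pos (hirr : (rep r).IsIrreducible) : 0 < n := by
  rcases Nat.eq_zero_or_pos n with h | h
  · subst h
    exfalso
    have h1 : IsSimpleModule (MonoidAlgebra ℂ G) (rep r).asModule := inferInstance
    have h2 : Nontrivial (rep r).asModule := IsSimpleModule.nontrivial (MonoidAlgebra ℂ G) _
    have h3 : Nontrivial (Fin 0 → ℂ) := h2
    exact not_subsingleton _ (inferInstance : Subsingleton (Fin 0 → ℂ))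
  · exact h

/-- the entries of a unitary matrix -/
theorem norm_entry_le (g : G) (i j : Fin n) : ‖(r g : Matrix (Fin n) (Fin n) ℂ) i j‖ ≤ 1 :=
  entry_norm_bound_of_unitary (r g).2 i j

theorem norm_char_le (g : G) : ‖(rep r).character g‖ ≤ n := by
  rw [char_rep, Matrix.trace]
  refine (norm_sum_le _ _).trans ((Finset.sum_le_sum fun i _ => norm_entry_le r g i i).trans ?_)
  simp

/-- a unitary matrix with the trace `n` is the identity -/
theorem eq_one_of_trace {g : G} (h : (rep r).character g = n) :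
    (r g : Matrix (Fin n) (Fin n) ℂ) = 1 := by
  set U := (r g : Matrix (Fin n) (Fin n) ℂ) with hU
  rw [char_rep, Matrix.trace] at h
  have h1 : ∀ i, (U i i).re ≤ 1 := fun i =>
    (Complex.re_le_norm _).trans (norm_entry_le r g i i)
  have h2 : ∑ i, (U i i).re = n := by
    have := congrArg Complex.re h
    rw [Complex.re_sum] at this
    simpa using this
  have h3 : ∀ i, (U i i).re = 1 := by
    by_contra hcon
    push Not at hcon
    obtain ⟨i, hi⟩ := hcon
    have h4 : ∑ i : Fin n, (U i i).re < ∑ _i : Fin n, (1 : ℝ) :=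
      Finset.sum_lt_sum (fun i _ => h1 i) ⟨i, Finset.mem_univ _, lt_of_le_of_ne (h1 i) hi⟩
    rw [h2] at h4
    simp at h4
  have h5 : ∀ i, U i i = 1 := by
    intro i
    have h6 : ‖U i i‖ ≤ 1 := norm_entry_le r g i i
    have h7 : (U i i).re ^ 2 + (U i i).im ^ 2 ≤ 1 := by
      have h8 : ‖U i i‖ ^ 2 = (U i i).re ^ 2 + (U i i).im ^ 2 := by
        rw [← Complex.normSq_eq_norm_sq, Complex.normSq_apply]
        ring
      rw [← h8]
      exact pow_le_one₀ (norm_nonneg _) h6
    rw [h3 i] at h7
    have h9 : (U i i).im = 0 := by nlinarith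
    exact Complex.ext (by rw [h3 i, Complex.one_re]) (by rw [h9, Complex.one_im])
  have h10 : U * Uᴴ = 1 := r_mul_star r g
  have h11 : ∀ i j, i ≠ j → U i j = 0 := by
    intro i j hij
    have h12 : ∑ k, ‖U i k‖ ^ 2 = 1 := by
      have h13 : (U * Uᴴ) i i = 1 := by rw [h10, Matrix.one_apply_eq]
      rw [Matrix.mul_apply] at h13
      have h14 := congrArg Complex.re h13
      rw [Complex.re_sum, Complex.one_re] at h14
      rw [← h14]
      refine Finset.sum_congr rfl fun k _ => ?_
      rw [Matrix.conjTranspose_apply]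
      have : U i k * star (U i k) = ((Complex.normSq (U i k) : ℝ) : ℂ) := Complex.mul_conj _
      rw [this, Complex.ofReal_re, Complex.normSq_eq_norm_sq]
    have h15 : ‖U i i‖ ^ 2 + ‖U i j‖ ^ 2 ≤ ∑ k, ‖U i k‖ ^ 2 := by
      have h17 : ∑ k ∈ ({i, j} : Finset (Fin n)), ‖U i k‖ ^ 2 ≤ ∑ k, ‖U i k‖ ^ 2 :=
        Finset.sum_le_sum_of_subset_of_nonneg (Finset.subset_univ _)
          fun _ _ _ => sq_nonneg _
      rwa [Finset.sum_pair hij] at h17
    rw [h12, h5 i, norm_one] at h15
    have h16 : ‖U i j‖ ^ 2 = 0 := le_antisymm (by linarith) (sq_nonneg _)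
    rw [sq_eq_zero_iff, norm_eq_zero] at h16
    exact h16
  ext i j
  by_cases hij : i = j
  · rw [hij, h5, Matrix.one_apply_eq]
  · rw [h11 i j hij, Matrix.one_apply_ne hij]

end

section
variable {G : Type} [Group G] [TopologicalSpace G] [IsTopologicalGroup G] [CompactSpace G]
  [MeasurableSpace G] [BorelSpace G] (μ : Measure G) [μ.IsMulLeftInvariant] [IsProbabilityMeasure μ]
  {n : ℕ} (r : G →* unitaryGroup (Fin n) ℂ) (hr : Continuous r)

include hr in
theorem cont_entry (i j : Fin n) : Continuous fun g => (r g : Matrix (Fin n) (Fin n) ℂ) i j :=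
  (continuous_subtype_val.comp hr).matrix_elem i j

include hr in
theorem cont_char : Continuous (rep r).character := by
  have : (rep r).character = fun g => ∑ i, (r g : Matrix (Fin n) (Fin n) ℂ) i i := by
    funext g
    rw [char_rep]
    rfl
  rw [this]
  exact continuous_finsetSum _ fun i _ => cont_entry r hr i i

omit [Group G] [IsTopologicalGroup G] [μ.IsMulLeftInvariant] in
theorem cint {E : Type*} [NormedAddCommGroup E] {f : G → E} (hf : Continuous f) :
    Integrable f μ :=
  hf.integrable_of_hasCompactSupport (HasCompactSupport.of_compactSpace f)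

omit [IsTopologicalGroup G] [μ.IsMulLeftInvariant] in
theorem isum {κ : Type*} (S : Finset κ) {f : κ → G → ℂ} (hf : ∀ k ∈ S, Continuous (f k)) :
    ∑ k ∈ S, ∫ g, f k g ∂μ = ∫ g, ∑ k ∈ S, f k g ∂μ :=
  (integral_finsetSum S fun k hk => cint μ (hf k hk)).symm

include hr in
/-- **The integral of a nontrivial irreducible character.** -/
theorem integral_char (hirr : (rep r).IsIrreducible) (hnt : ∃ g, r g ≠ 1) :
    ∫ g, (rep r).character g ∂μ = 0 := by
  set P : Matrix (Fin n) (Fin n) ℂ := fun i j => ∫ g, (r g : Matrix (Fin n) (Fin n) ℂ) i j ∂μ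
    with hP
  have h1 : ∀ h, (r h : Matrix (Fin n) (Fin n) ℂ) * P = P := by
    intro h
    ext i j
    rw [Matrix.mul_apply, hP]
    simp only
    have h2 : ∀ k, (r h : Matrix (Fin n) (Fin n) ℂ) i k *
        (∫ g, (r g : Matrix (Fin n) (Fin n) ℂ) k j ∂μ) =
        ∫ g, (r h : Matrix (Fin n) (Fin n) ℂ) i k * (r g : Matrix (Fin n) (Fin n) ℂ) k j ∂μ :=
      fun k => (integral_const_mul _ _).symm
    rw [Finset.sum_congr rfl fun k _ => h2 k, isum μ Finset.univ
      (f := fun k g => (r h : Matrix (Fin n) (Fin n) ℂ) i k *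
        (r g : Matrix (Fin n) (Fin n) ℂ) k j) fun k _ =>
      continuous_const.mul (cont_entry r hr k j)]
    have h3 : ∀ g, ∑ k, (r h : Matrix (Fin n) (Fin n) ℂ) i k *
        (r g : Matrix (Fin n) (Fin n) ℂ) k j = (r (h * g) : Matrix (Fin n) (Fin n) ℂ) i j := by
      intro g
      rw [map_mul]
      exact (Matrix.mul_apply).symm
    simp only [h3]
    exact integral_mul_left_eq_self (fun g => (r g : Matrix (Fin n) (Fin n) ℂ) i j) h
  have hP0 : P = 0 := by
    by_contra hcon
    obtain ⟨x, hx⟩ : ∃ x, P *ᵥ x ≠ 0 := by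
      by_contra h
      push Not at h
      apply hcon
      apply Matrix.toLin'.injective
      apply LinearMap.ext
      intro x
      rw [Matrix.toLin'_apply, h x, map_zero, LinearMap.zero_apply]
    -- the map of the trivial representation
    let f : (Representation.trivial ℂ G ℂ).IntertwiningMap (rep r) :=
      { toLinearMap := LinearMap.toSpanSingleton ℂ _ (P *ᵥ x)
        isIntertwining' := by
          intro g
          apply LinearMap.ext
          intro z
          change z • (P *ᵥ x) = rep r g (z • (P *ᵥ x))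
          rw [map_smul, rep_apply, Matrix.mulVec_mulVec, h1] }
    rcases (Representation.IsIrreducible.surjective_or_eq_zero (ρ := rep r) f) with h4 | h4
    · obtain ⟨g, hg⟩ := hnt
      apply hg
      apply Subtype.ext
      apply Matrix.toLin'.injective
      apply LinearMap.ext
      intro y
      obtain ⟨z, hz⟩ := h4 y
      have h5 : y = z • (P *ᵥ x) := hz.symm
      rw [h5, map_smul, map_smul, Matrix.toLin'_apply, Matrix.mulVec_mulVec, h1]
      change _ = z • (Matrix.toLin' (1 : Matrix (Fin n) (Fin n) ℂ)) (P *ᵥ x)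
      rw [Matrix.toLin'_one]
      rfl
    · apply hx
      have h5 : f (1 : ℂ) = (1 : ℂ) • (P *ᵥ x) := rfl
      rw [h4] at h5
      rw [one_smul] at h5
      exact h5.symm
  have h6 : ∀ g, (rep r).character g = ∑ i, (r g : Matrix (Fin n) (Fin n) ℂ) i i := by
    intro g
    rw [char_rep]
    rfl
  simp only [h6]
  rw [← isum μ Finset.univ (f := fun i g => (r g : Matrix (Fin n) (Fin n) ℂ) i i)
    fun i _ => cont_entry r hr i i]
  refine Finset.sum_eq_zero fun i _ => ?_
  have h7 : P i i = 0 := by rw [hP0]; rfl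
  exact h7

include hr in
/-- **The mean square of an irreducible character.** -/
theorem integral_normSq (hirr : (rep r).IsIrreducible) :
    ∫ g, ‖(rep r).character g‖ ^ 2 ∂μ = 1 := by
  classical
  have hn := dim_pos r hirr
  set M : Matrix (Fin n) (Fin n) ℂ → Matrix (Fin n) (Fin n) ℂ := fun A i j =>
    ∫ g, ((r g : Matrix (Fin n) (Fin n) ℂ) * A * (r g : Matrix (Fin n) (Fin n) ℂ)ᴴ) i j ∂μ with hM
  have hcont : ∀ (A : Matrix (Fin n) (Fin n) ℂ) (i j : Fin n), Continuous fun g =>
      ((r g : Matrix (Fin n) (Fin n) ℂ) * A * (r g : Matrix (Fin n) (Fin n) ℂ)ᴴ) i j := by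
    intro A i j
    have h1 : Continuous fun g => (r g : Matrix (Fin n) (Fin n) ℂ) := continuous_subtype_val.comp hr
    exact (((h1.matrix_mul continuous_const).matrix_mul h1.matrix_conjTranspose)).matrix_elem i j
  have hcomm : ∀ (A : Matrix (Fin n) (Fin n) ℂ) h, (r h : Matrix (Fin n) (Fin n) ℂ) * M A =
      M A * (r h : Matrix (Fin n) (Fin n) ℂ) := by
    intro A h
    have key : (r h : Matrix (Fin n) (Fin n) ℂ) * M A * (r h : Matrix (Fin n) (Fin n) ℂ)ᴴ =
        M A := by
      ext i j
      rw [Matrix.mul_apply]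
      have h2 : ∀ k, ((r h : Matrix (Fin n) (Fin n) ℂ) * M A) i k *
          (r h : Matrix (Fin n) (Fin n) ℂ)ᴴ k j = ∫ g, ((r h : Matrix (Fin n) (Fin n) ℂ) *
            ((r g : Matrix (Fin n) (Fin n) ℂ) * A * (r g : Matrix (Fin n) (Fin n) ℂ)ᴴ)) i k *
            (r h : Matrix (Fin n) (Fin n) ℂ)ᴴ k j ∂μ := by
        intro k
        rw [integral_mul_const]
        congr 1
        rw [Matrix.mul_apply]
        simp only [Matrix.mul_apply (M := (r h : Matrix (Fin n) (Fin n) ℂ))]
        rw [← isum μ Finset.univ (f := fun l g => (r h : Matrix (Fin n) (Fin n) ℂ) i l *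
          ((r g : Matrix (Fin n) (Fin n) ℂ) * A * (r g : Matrix (Fin n) (Fin n) ℂ)ᴴ) l k)
          fun l _ => continuous_const.mul (hcont A l k)]
        refine Finset.sum_congr rfl fun l _ => ?_
        rw [integral_const_mul]
      rw [Finset.sum_congr rfl fun k _ => h2 k]
      have hc2 : ∀ k, Continuous fun g => ((r h : Matrix (Fin n) (Fin n) ℂ) *
            ((r g : Matrix (Fin n) (Fin n) ℂ) * A * (r g : Matrix (Fin n) (Fin n) ℂ)ᴴ)) i k *
            (r h : Matrix (Fin n) (Fin n) ℂ)ᴴ k j := by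
        intro k
        have h1 : Continuous fun g => (r g : Matrix (Fin n) (Fin n) ℂ) :=
          continuous_subtype_val.comp hr
        exact ((continuous_const.matrix_mul ((h1.matrix_mul continuous_const).matrix_mul
          h1.matrix_conjTranspose)).matrix_elem i k).mul continuous_const
      rw [isum μ Finset.univ (f := fun k g => ((r h : Matrix (Fin n) (Fin n) ℂ) *
            ((r g : Matrix (Fin n) (Fin n) ℂ) * A * (r g : Matrix (Fin n) (Fin n) ℂ)ᴴ)) i k *
            (r h : Matrix (Fin n) (Fin n) ℂ)ᴴ k j) fun k _ => hc2 k]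
      have h3 : ∀ g, ∑ k, ((r h : Matrix (Fin n) (Fin n) ℂ) *
            ((r g : Matrix (Fin n) (Fin n) ℂ) * A * (r g : Matrix (Fin n) (Fin n) ℂ)ᴴ)) i k *
            (r h : Matrix (Fin n) (Fin n) ℂ)ᴴ k j =
            ((r (h * g) : Matrix (Fin n) (Fin n) ℂ) * A *
              (r (h * g) : Matrix (Fin n) (Fin n) ℂ)ᴴ) i j := by
        intro g
        rw [← Matrix.mul_apply]
        have h4 : (r (h * g) : Matrix (Fin n) (Fin n) ℂ) =
            (r h : Matrix (Fin n) (Fin n) ℂ) * (r g : Matrix (Fin n) (Fin n) ℂ) := by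
          rw [map_mul]
          rfl
        rw [h4, Matrix.conjTranspose_mul]
        simp only [Matrix.mul_assoc]
      simp only [h3]
      exact integral_mul_left_eq_self (fun g => ((r g : Matrix (Fin n) (Fin n) ℂ) * A *
              (r g : Matrix (Fin n) (Fin n) ℂ)ᴴ) i j) h
    calc (r h : Matrix (Fin n) (Fin n) ℂ) * M A =
        (r h : Matrix (Fin n) (Fin n) ℂ) * M A * ((r h : Matrix (Fin n) (Fin n) ℂ)ᴴ *
          (r h : Matrix (Fin n) (Fin n) ℂ)) := by rw [star_mul_r, Matrix.mul_one]
      _ = ((r h : Matrix (Fin n) (Fin n) ℂ) * M A * (r h : Matrix (Fin n) (Fin n) ℂ)ᴴ) *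
          (r h : Matrix (Fin n) (Fin n) ℂ) := by rw [Matrix.mul_assoc, Matrix.mul_assoc,
            Matrix.mul_assoc]
      _ = M A * (r h : Matrix (Fin n) (Fin n) ℂ) := by rw [key]
  have htr : ∀ A : Matrix (Fin n) (Fin n) ℂ, (M A).trace = A.trace := by
    intro A
    have h1 : (M A).trace = ∑ i, ∫ g, ((r g : Matrix (Fin n) (Fin n) ℂ) * A *
      (r g : Matrix (Fin n) (Fin n) ℂ)ᴴ) i i ∂μ := rfl
    rw [h1, isum μ Finset.univ (f := fun i g => ((r g : Matrix (Fin n) (Fin n) ℂ) * A *
      (r g : Matrix (Fin n) (Fin n) ℂ)ᴴ) i i) fun i _ => hcont A i i]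
    have h2 : ∀ g, ∑ i, ((r g : Matrix (Fin n) (Fin n) ℂ) * A *
      (r g : Matrix (Fin n) (Fin n) ℂ)ᴴ) i i = A.trace := by
      intro g
      change ((r g : Matrix (Fin n) (Fin n) ℂ) * A *
        (r g : Matrix (Fin n) (Fin n) ℂ)ᴴ).trace = A.trace
      rw [Matrix.trace_mul_comm, ← Matrix.mul_assoc, star_mul_r, Matrix.one_mul]
    simp only [h2]
    rw [integral_const]
    simp
  have hval : ∀ A : Matrix (Fin n) (Fin n) ℂ, ∀ i j, M A i j =
      (A.trace / n) * (1 : Matrix (Fin n) (Fin n) ℂ) i j := by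
    intro A i j
    obtain ⟨c, hc⟩ := schur r hirr (M A) fun g => hcomm A g
    have h1 := htr A
    rw [hc, Matrix.trace_smul, Matrix.trace_one, Fintype.card_fin, smul_eq_mul] at h1
    have hn0 : (n : ℂ) ≠ 0 := by exact_mod_cast hn.ne'
    rw [hc, Matrix.smul_apply, smul_eq_mul, ← h1, mul_div_cancel_right₀ _ hn0]
  have h8 : ∀ g, ((‖(rep r).character g‖ ^ 2 : ℝ) : ℂ) = ∑ i, ∑ j,
      ((r g : Matrix (Fin n) (Fin n) ℂ) * (Matrix.single i j 1 : Matrix (Fin n) (Fin n) ℂ) *
        (r g : Matrix (Fin n) (Fin n) ℂ)ᴴ) i j := by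
    intro g
    have h9 : ((‖(rep r).character g‖ ^ 2 : ℝ) : ℂ) = (rep r).character g *
        (starRingEnd ℂ) ((rep r).character g) := by
      rw [Complex.mul_conj, Complex.normSq_eq_norm_sq]
    rw [h9, char_rep, Matrix.trace, map_sum, Finset.sum_mul_sum]
    refine Finset.sum_congr rfl fun i _ => Finset.sum_congr rfl fun j _ => ?_
    rw [single_entry, Matrix.diag_apply, Matrix.diag_apply, Matrix.conjTranspose_apply]
    rfl
  have h10 : (((∫ g, ‖(rep r).character g‖ ^ 2 ∂μ : ℝ)) : ℂ) = 1 := by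
    rw [← integral_complex_ofReal]
    simp only [h8]
    rw [← isum μ Finset.univ (f := fun i g => ∑ j, ((r g : Matrix (Fin n) (Fin n) ℂ) *
      (Matrix.single i j 1 : Matrix (Fin n) (Fin n) ℂ) * (r g : Matrix (Fin n) (Fin n) ℂ)ᴴ) i j) fun i _ =>
      continuous_finsetSum _ fun j _ => hcont (Matrix.single i j 1) i j]
    have h11 : ∀ i : Fin n, (∫ g, ∑ j, ((r g : Matrix (Fin n) (Fin n) ℂ) * (Matrix.single i j 1 : Matrix (Fin n) (Fin n) ℂ) *
        (r g : Matrix (Fin n) (Fin n) ℂ)ᴴ) i j ∂μ) = 1 / n := by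
      intro i
      rw [← isum μ Finset.univ (f := fun j g => ((r g : Matrix (Fin n) (Fin n) ℂ) *
        (Matrix.single i j 1 : Matrix (Fin n) (Fin n) ℂ) * (r g : Matrix (Fin n) (Fin n) ℂ)ᴴ) i j) fun j _ =>
        hcont (Matrix.single i j 1) i j]
      rw [Finset.sum_eq_single i]
      · have := hval (Matrix.single i i 1) i i
        rw [Matrix.trace_single_eq_same, Matrix.one_apply_eq, mul_one] at this
        exact this
      · intro j _ hj
        have := hval (Matrix.single i j 1) i j
        rw [Matrix.one_apply_ne hj.symm, mul_zero] at this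
        exact this
      · intro h
        exact absurd (Finset.mem_univ _) h
    rw [Finset.sum_congr rfl fun i _ => h11 i, Finset.sum_const, Finset.card_univ,
      Fintype.card_fin, nsmul_eq_mul]
    have hn0 : (n : ℂ) ≠ 0 := by exact_mod_cast hn.ne'
    field_simp
  exact_mod_cast h10

end

end Pool.Agent.W353.ST
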