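import Pool.Agent.W353.ST.Defs
import Pool.Agent.W353.ST.Haar
import Pool.Agent.W385.GA.Sq2

/-! Mean values in the sense of the analytic density. -/

set_option autoImplicit false

namespace Pool.Agent.W353.ST

open Complex Filter Topology NumberField IsDedekindDomain
  Pool.Agent.W401.Cheb Pool.Agent.W540.BE
open Pool.Agent.H341R2 (lam lam_tendsto)

section
variable {F : Type} [Field F] [NumberField F]

theorem summable_w {f : HeightOneSpectrum (𝓞 F) → ℂ} {B : ℝ} (hf : ∀ v, ‖f v‖ ≤ B) {ε : ℝ}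
    (hε : 0 < ε) : Summable fun v : HeightOneSpectrum (𝓞 F) =>
      f v * (((Ideal.absNorm v.asIdeal : ℝ) ^ (-(1 + ε)) : ℝ) : ℂ) := by
  refine Summable.of_norm_bounded ((normSys.summable (-(1 + ε)) (by linarith)).mul_left B)
    fun v => ?_
  rw [norm_mul, Complex.norm_real, Real.norm_eq_abs, abs_of_nonneg (by positivity)]
  exact mul_le_mul_of_nonneg_right (hf v) (by positivity)

theorem tsum_w {f : HeightOneSpectrum (𝓞 F) → ℂ} {B : ℝ} (hf : ∀ v, ‖f v‖ ≤ B) {ε : ℝ}
    (hε : 0 < ε) : ∑' v : HeightOneSpectrum (𝓞 F),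
      f v * (((Ideal.absNorm v.asIdeal : ℝ) ^ (-(1 + ε)) : ℝ) : ℂ) =
      (EP (nm F) ε fun v => (f v).re : ℝ) + (EP (nm F) ε fun v => (f v).im : ℝ) * I := by
  have hs := summable_w hf hε
  apply Complex.ext
  · rw [Complex.re_tsum hs]
    simp only [Complex.mul_re, Complex.ofReal_re, Complex.ofReal_im, mul_zero, sub_zero,
      Complex.add_re, Complex.I_re, Complex.I_im, mul_one, add_zero]
    rfl
  · rw [Complex.im_tsum hs]
    simp only [Complex.ofReal_re, Complex.ofReal_im, mul_zero,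
      Complex.add_im, Complex.I_re, Complex.I_im, Complex.mul_im, mul_one, add_zero, zero_add]
    rfl

theorem tsum_one {ε : ℝ} (hε : 0 < ε) : ∑' v : HeightOneSpectrum (𝓞 F),
      (((Ideal.absNorm v.asIdeal : ℝ) ^ (-(1 + ε)) : ℝ) : ℂ) = (EP (nm F) ε fun _ => 1 : ℝ) := by
  have h := tsum_w (F := F) (f := fun _ => 1) (B := 1) (fun _ => by simp) hε
  simp only [one_mul, Complex.one_re, Complex.one_im] at h
  rw [h]
  have e : (EP (nm F) ε fun _ : HeightOneSpectrum (𝓞 F) => (0 : ℝ)) = 0 := by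
    unfold EP
    simp
  rw [e]
  simp

/-- the complex mean value -/
noncomputable def EC (ε : ℝ) (f : HeightOneSpectrum (𝓞 F) → ℂ) : ℂ :=
  ((EP (nm F) ε fun v => (f v).re) / lam ε : ℝ) + ((EP (nm F) ε fun v => (f v).im) / lam ε : ℝ) * I

theorem EC_re (ε : ℝ) (f : HeightOneSpectrum (𝓞 F) → ℂ) :
    (EC ε f).re = (EP (nm F) ε fun v => (f v).re) / lam ε := by
  simp [EC]

theorem EC_im (ε : ℝ) (f : HeightOneSpectrum (𝓞 F) → ℂ) :
    (EC ε f).im = (EP (nm F) ε fun v => (f v).im) / lam ε := by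
  simp [EC]

theorem hasMean_iff {f : HeightOneSpectrum (𝓞 F) → ℂ} {B : ℝ} (hf : ∀ v, ‖f v‖ ≤ B) (m : ℂ) :
    HasMean f m ↔ Tendsto (fun ε : ℝ => EC ε f) (𝓝[>] 0) (𝓝 m) := by
  have hone : Tendsto (fun ε : ℝ => (((EP (nm F) ε fun _ => 1) / lam ε : ℝ) : ℂ)) (𝓝[>] 0)
      (𝓝 1) := by
    have := (Complex.continuous_ofReal.tendsto 1).comp (EP_one F)
    exact this
  have hval : ∀ᶠ ε : ℝ in 𝓝[>] 0, (∑' v : HeightOneSpectrum (𝓞 F),
      f v * (((Ideal.absNorm v.asIdeal : ℝ) ^ (-(1 + ε)) : ℝ) : ℂ)) /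
      ∑' v : HeightOneSpectrum (𝓞 F), (((Ideal.absNorm v.asIdeal : ℝ) ^ (-(1 + ε)) : ℝ) : ℂ) =
      EC ε f / (((EP (nm F) ε fun _ => 1) / lam ε : ℝ) : ℂ) := by
    filter_upwards [self_mem_nhdsWithin, lam_tendsto.eventually_gt_atTop 0] with ε hε hl
    have hε' : (0 : ℝ) < ε := hε
    rw [tsum_w hf hε', tsum_one hε', EC]
    have hl' : (lam ε : ℂ) ≠ 0 := by exact_mod_cast hl.ne'
    push_cast
    rw [div_mul_eq_mul_div, ← add_div, div_div_div_cancel_right₀ hl']
  constructor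
  · intro h
    have h1 : Tendsto (fun ε : ℝ => 1 + ε) (𝓝[>] 0) (𝓝[>] 1) := by
      refine tendsto_nhdsWithin_iff.2 ⟨?_, ?_⟩
      · have : Tendsto (fun ε : ℝ => 1 + ε) (𝓝 0) (𝓝 (1 + 0)) :=
          (continuous_const.add continuous_id).tendsto 0
        rw [add_zero] at this
        exact this.mono_left nhdsWithin_le_nhds
      · filter_upwards [self_mem_nhdsWithin] with ε hε
        have : (0 : ℝ) < ε := hε
        exact (by linarith : (1 : ℝ) < 1 + ε)
    have h2 := (h.comp h1).congr' hval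
    have h3 := h2.mul hone
    rw [mul_one] at h3
    refine h3.congr' ?_
    filter_upwards [(EP_one F).eventually_const_lt (by norm_num : (0 : ℝ) < 1)] with ε hε
    rw [div_mul_cancel₀]
    exact_mod_cast hε.ne'
  · intro h
    have h2 := h.div hone one_ne_zero
    rw [div_one] at h2
    have h3 := h2.congr' (hval.mono fun ε hε => hε.symm)
    have h1 : Tendsto (fun s : ℝ => s - 1) (𝓝[>] 1) (𝓝[>] 0) := by
      refine tendsto_nhdsWithin_iff.2 ⟨?_, ?_⟩
      · have : Tendsto (fun s : ℝ => s - 1) (𝓝 1) (𝓝 (1 - 1)) :=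
          (continuous_id.sub continuous_const).tendsto 1
        rw [sub_self] at this
        exact this.mono_left nhdsWithin_le_nhds
      · filter_upwards [self_mem_nhdsWithin] with s hs
        have : (1 : ℝ) < s := hs
        exact (by linarith : (0 : ℝ) < s - 1)
    have h4 := h3.comp h1
    unfold HasMean
    refine h4.congr fun s => ?_
    simp only [Function.comp_apply, add_sub_cancel]

theorem ec_tendsto_iff {f : HeightOneSpectrum (𝓞 F) → ℂ} {m : ℂ} :
    Tendsto (fun ε : ℝ => EC ε f) (𝓝[>] 0) (𝓝 m) ↔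
      Tendsto (fun ε : ℝ => (EP (nm F) ε fun v => (f v).re) / lam ε) (𝓝[>] 0) (𝓝 m.re) ∧
      Tendsto (fun ε : ℝ => (EP (nm F) ε fun v => (f v).im) / lam ε) (𝓝[>] 0) (𝓝 m.im) := by
  constructor
  · intro h
    refine ⟨((Complex.continuous_re.tendsto m).comp h).congr fun ε => EC_re ε f,
      ((Complex.continuous_im.tendsto m).comp h).congr fun ε => EC_im ε f⟩
  · rintro ⟨h1, h2⟩
    have h3 := ((Complex.continuous_ofReal.tendsto _).comp h1).add
      (((Complex.continuous_ofReal.tendsto _).comp h2).mul_const I)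
    rw [Complex.re_add_im] at h3
    exact h3

/-- real functions -/
theorem hasMean_real {f : HeightOneSpectrum (𝓞 F) → ℝ} {B : ℝ} (hf : ∀ v, |f v| ≤ B) {m : ℝ}
    (h : HasMean (fun v => (f v : ℂ)) m) :
    Tendsto (fun ε : ℝ => EP (nm F) ε f / lam ε) (𝓝[>] 0) (𝓝 m) := by
  have h1 := (hasMean_iff (B := B) (fun v => by
    rw [Complex.norm_real]; exact hf v) _).1 h
  have h2 := (ec_tendsto_iff.1 h1).1
  simpa using h2

end

end Pool.Agent.W353.ST
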