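import Pool.Agent.W353.ST.Strict

/-! Automatic holomorphy and non-vanishing on the edge. -/

set_option autoImplicit false

namespace Pool.Agent.W353.ST

open Complex Filter Topology NumberField IsDedekindDomain MeasureTheory ComplexConjugate Polynomial
  Pool.Agent.W401.Cheb Pool.Agent.W540.BE Pool.Agent.W385.GA
open Matrix (unitaryGroup)
open Pool.Agent.H341R2 (lam lam_tendsto)
open Pool.Agent.W353.AT (IsFrobeniusElement)

section
variable {G : Type} [Group G] {n : ℕ} (r : G →* unitaryGroup (Fin n) ℂ)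

open scoped ComplexOrder in
/-- the eigenvalues of a unitary matrix -/
theorem eig_le {g : G} {l : ℂ} (h : Module.End.HasEigenvalue (rep r g) l) : ‖l‖ ≤ 1 := by
  obtain ⟨z, hz⟩ := h.exists_hasEigenvector
  have hz0 : z ≠ 0 := hz.2
  have h1 : (r g : Matrix (Fin n) (Fin n) ℂ).mulVec z = l • z := by
    rw [← rep_apply]
    exact hz.apply_eq_smul
  have h2 : star ((r g : Matrix (Fin n) (Fin n) ℂ).mulVec z) ⬝ᵥ
      ((r g : Matrix (Fin n) (Fin n) ℂ).mulVec z) = star z ⬝ᵥ z := by
    rw [Matrix.star_mulVec, ← Matrix.dotProduct_mulVec, Matrix.mulVec_mulVec, star_mul_r,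
      Matrix.one_mulVec]
  rw [h1, star_smul, smul_dotProduct, dotProduct_smul, smul_eq_mul, smul_eq_mul,
    ← mul_assoc] at h2
  have h3 : star z ⬝ᵥ z ≠ 0 := by
    intro h
    exact hz0 (dotProduct_star_self_eq_zero.1 h)
  have h4 : star l * l = 1 := mul_right_cancel₀ h3 (by rw [h2, one_mul])
  have h5 : ‖l‖ * ‖l‖ = 1 := by
    have := congrArg norm h4
    rwa [norm_mul, norm_star, norm_one] at this
  nlinarith [norm_nonneg l]

/-- a unitary matrix whose trace has absolute value `n` is a scalar -/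
theorem scalar_of_trace {g : G} (hn : 0 < n) (h : ‖(rep r).character g‖ = n) :
    ∃ z : ℂ, (r g : Matrix (Fin n) (Fin n) ℂ) = z • (1 : Matrix (Fin n) (Fin n) ℂ) := by
  have hn0 : (n : ℂ) ≠ 0 := by exact_mod_cast hn.ne'
  have hnr : (0 : ℝ) < n := by exact_mod_cast hn
  set t := (rep r).character g with ht
  set z : ℂ := t / n with hz
  have hz1 : ‖z‖ = 1 := by
    rw [hz, norm_div, h, Complex.norm_natCast, div_self hnr.ne']
  have hzz : z * conj z = 1 := by
    rw [Complex.mul_conj, Complex.normSq_eq_norm_sq, hz1]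
    simp
  have hzz' : conj z * z = 1 := by rw [mul_comm]; exact hzz
  -- the unitary matrix with trace `n`
  have hmem : conj z • (r g : Matrix (Fin n) (Fin n) ℂ) ∈ unitaryGroup (Fin n) ℂ := by
    rw [Matrix.mem_unitaryGroup_iff, Matrix.star_eq_conjTranspose, Matrix.conjTranspose_smul,
      Matrix.smul_mul, Matrix.mul_smul, r_mul_star, smul_smul]
    have : conj z * star (conj z) = 1 := by
      change conj z * conj (conj z) = 1
      rw [Complex.conj_conj]
      exact hzz'
    rw [this, one_smul]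
  let r' : Multiplicative ℤ →* unitaryGroup (Fin n) ℂ := zpowersHom _ ⟨_, hmem⟩
  have h1 : (r' (Multiplicative.ofAdd 1) : Matrix (Fin n) (Fin n) ℂ) =
      conj z • (r g : Matrix (Fin n) (Fin n) ℂ) := by
    change (((⟨_, hmem⟩ : unitaryGroup (Fin n) ℂ) ^ (1 : ℤ) : unitaryGroup (Fin n) ℂ) :
      Matrix (Fin n) (Fin n) ℂ) = _
    rw [zpow_one]
  have h2 : (rep r').character (Multiplicative.ofAdd 1) = n := by
    rw [char_rep, h1, Matrix.trace_smul, ← char_rep, ← ht, smul_eq_mul]
    have h3 : t = n * z := by rw [hz, mul_div_cancel₀ _ hn0]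
    rw [h3, mul_left_comm, hzz', mul_one]
  have h3 := eq_one_of_trace r' h2
  rw [h1] at h3
  refine ⟨z, ?_⟩
  rw [← h3, smul_smul, hzz, one_smul]

end

section
variable {K : Type} [Field K] [NumberField K]

/-- an Artin representation has finitely many character values -/
theorem finite_chi (A : ArtinRep K) : (Set.range A.χ).Finite := by
  obtain ⟨U, hU1, hU2, hU⟩ := exists_common {A}
  have := finite_quot hU2
  refine (Set.finite_range fun q : GK K ⧸ U => A.χ q.out).subset ?_
  rintro _ ⟨g, rfl⟩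
  obtain ⟨u, hu⟩ := QuotientGroup.mk_out_eq_mul U g
  refine ⟨QuotientGroup.mk g, ?_⟩
  simp only
  rw [hu]
  unfold ArtinRep.χ Representation.character
  rw [map_mul, hU A (by simp) u u.2, mul_one]

open Classical in
/-- the character values up to sign, and their conjugates -/
noncomputable def vals (A : ArtinRep K) : Finset ℂ :=
  ((finite_chi A).toFinset.image fun z => conj z) ∪ ((finite_chi A).toFinset.image fun z => -conj z)

theorem mem_vals (A : ArtinRep K) (g : GK K) {σ : ℝ} (hσ : σ = 1 ∨ σ = -1) :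
    -((σ : ℂ) * conj (A.χ g)) ∈ vals A := by
  classical
  unfold vals
  rw [Finset.mem_union, Finset.mem_image, Finset.mem_image]
  rcases hσ with rfl | rfl
  · right
    exact ⟨A.χ g, (Set.Finite.mem_toFinset _).2 ⟨g, rfl⟩, by simp⟩
  · left
    exact ⟨A.χ g, (Set.Finite.mem_toFinset _).2 ⟨g, rfl⟩, by simp⟩

theorem norm_vals {A : ArtinRep K} {z : ℂ} (hz : z ∈ vals A) : ‖z‖ ≤ A.n := by
  classical
  unfold vals at hz
  rw [Finset.mem_union, Finset.mem_image, Finset.mem_image] at hz
  rcases hz with ⟨y, hy, rfl⟩ | ⟨y, hy, rfl⟩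
  · rw [Set.Finite.mem_toFinset] at hy
    obtain ⟨g, rfl⟩ := hy
    rw [Complex.norm_conj]
    exact Pool.Agent.W385.GA.norm_chi_le A g
  · rw [Set.Finite.mem_toFinset] at hy
    obtain ⟨g, rfl⟩ := hy
    rw [norm_neg, Complex.norm_conj]
    exact Pool.Agent.W385.GA.norm_chi_le A g

variable {G : Type} [Group G] {n : ℕ} (x : HeightOneSpectrum (𝓞 K) → G)
  (frob : HeightOneSpectrum (𝓞 K) → GK K) (hfrob : ∀ v, IsFrob v (frob v))
  (r : G →* unitaryGroup (Fin n) ℂ)

theorem hc_le : ∀ v, v ∉ (∅ : Finset (HeightOneSpectrum (𝓞 K))) → ∀ l,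
    Module.End.HasEigenvalue (rep r (x v)) l → ‖l‖ ≤ (nm K v : ℝ) ^ (0 : ℝ) := by
  intro v _ l hl
  rw [Real.rpow_zero]
  exact eig_le r hl

/-- the system of the traces -/
noncomputable def sy : Sy K := detSy (Fin n → ℂ) (fun v => rep r (x v)) 0 ∅ frob (hc_le x r) hfrob

theorem tn_eq (v : HeightOneSpectrum (𝓞 K)) :
    tn (sy x frob hfrob r).t (sy x frob hfrob r).w (sy x frob hfrob r).S₀ v =
      (rep r).character (x v) := by
  classical
  unfold tn sy detSy
  simp only [Finset.notMem_empty, if_false, if_true, Complex.ofReal_zero, neg_zero,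
    Complex.cpow_zero, mul_one]
  rfl

end

section
variable {K : Type} [Field K] [NumberField K]
  {G : Type} [Group G] [TopologicalSpace G] [IsTopologicalGroup G] [CompactSpace G]
  [MeasurableSpace G] [BorelSpace G] {μ : Measure G} [μ.IsMulLeftInvariant] [μ.IsOpenPosMeasure]
  [IsProbabilityMeasure μ]
  {n : ℕ} {x : HeightOneSpectrum (𝓞 K) → G} (hx : Equidistributed μ x)
  (frob : HeightOneSpectrum (𝓞 K) → GK K) (hfrob : ∀ v, IsFrob v (frob v))
  {r : G →* unitaryGroup (Fin n) ℂ} (hr : Continuous r)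

include hx in
/-- mean values of real continuous class functions -/
theorem mean_real {f : G → ℝ} (hf : Continuous f) (hc : ∀ g h, f (h * g * h⁻¹) = f g) {B : ℝ}
    (hB : ∀ g, |f g| ≤ B) :
    Tendsto (fun ε : ℝ => EP (nm K) ε (fun v => f (x v)) / lam ε) (𝓝[>] 0)
      (𝓝 (∫ g, f g ∂μ)) := by
  have h1 := hx (fun g => (f g : ℂ)) (Complex.continuous_ofReal.comp hf) fun g h =>
    congrArg ((↑) : ℝ → ℂ) (hc g h)
  rw [integral_complex_ofReal] at h1
  exact hasMean_real (fun v => hB (x v)) h1

include hx hr in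
theorem bd_one (hirr : (rep r).IsIrreducible) : (sy x frob hfrob r).Bd 1 := by
  have h1 := mean_real hx (f := fun g => ‖(rep r).character g‖ ^ 2)
    ((continuous_norm.comp (cont_char r hr)).pow 2) (fun g h => by
      rw [Representation.char_conj]) (B := (n : ℝ) ^ 2) (fun g => by
      rw [abs_of_nonneg (sq_nonneg _)]
      exact pow_le_pow_left₀ (norm_nonneg _) (norm_char_le r g) 2)
  rw [integral_normSq μ r hr hirr] at h1
  intro η hη
  filter_upwards [h1.eventually_lt_const (by linarith : (1 : ℝ) < 1 + η)] with ε hε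
  unfold Sy.u
  simp only [tn_eq]
  exact hε.le

include hx hr in
/-- the strict inequality, for a distance `d` -/
theorem core (hirr : (rep r).IsIrreducible) {A : ArtinRep K} (hA : A.ρ.IsIrreducible) (τ : ℝ)
    (d : ℂ → ℂ → ℝ) (hd : ∀ z, Continuous fun y => d y z) (hd0 : ∀ y z, 0 ≤ d y z)
    (hdb : ∀ y z, d y z ≤ ‖y‖ + ‖z‖)
    (hd1 : ∀ v, ∀ σ : ℝ, σ = 1 ∨ σ = -1 → ∃ z ∈ vals A,
      d ((rep r).character (x v)) z ≤ ‖(rep r).character (x v) + (σ : ℂ) * vv frob A τ v‖)
    (hd2 : ∃ g, ∀ z ∈ vals A, d ((rep r).character g) z ≠ 0) :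
    ∃ c : ℝ, c < 1 ∧ ∀ᶠ ε : ℝ in 𝓝[>] 0, |(sy x frob hfrob r).x A τ ε| ≤ c := by
  classical
  set M : ℝ := (n + A.n + 1) ^ 2 with hM
  have hM1 : 1 ≤ M := by
    rw [hM]
    have h1 : (0 : ℝ) ≤ n := Nat.cast_nonneg _
    have h2 : (0 : ℝ) ≤ A.n := Nat.cast_nonneg _
    nlinarith
  set P : G → ℝ := fun g => ∏ z ∈ vals A, d ((rep r).character g) z ^ 2 with hP
  have hPc : Continuous P := continuous_finsetProd _ fun z _ =>
    ((hd z).comp (cont_char r hr)).pow 2
  have hfac : ∀ g, ∀ z ∈ vals A, d ((rep r).character g) z ^ 2 ≤ M := by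
    intro g z hz
    refine pow_le_pow_left₀ (hd0 _ _) ((hdb _ _).trans ?_) 2
    have h1 := norm_char_le r g
    have h2 := norm_vals hz
    linarith
  have hP0 : ∀ g, 0 ≤ P g := fun g => Finset.prod_nonneg fun z _ => sq_nonneg _
  have hPb : ∀ g, P g ≤ M ^ (vals A).card := fun g => by
    refine (Finset.prod_le_prod (fun z _ => sq_nonneg _) fun z hz => hfac g z hz).trans ?_
    rw [Finset.prod_const]
  have hPabs : ∀ g, |P g| ≤ M ^ (vals A).card := fun g => by
    rw [abs_of_nonneg (hP0 g)]
    exact hPb g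
  have hPpos : 0 < ∫ g, P g ∂μ := by
    obtain ⟨g, hg⟩ := hd2
    refine hPc.integral_pos_of_hasCompactSupport_nonneg_nonzero
      (HasCompactSupport.of_compactSpace P) hP0 (x := g) ?_
    exact Finset.prod_ne_zero_iff.2 fun z hz => pow_ne_zero 2 (hg z hz)
  have hmean := mean_real hx (f := P) hPc (fun g h => by
    rw [hP]
    simp only
    rw [Representation.char_conj]) hPabs
  refine strict (sy x frob hfrob r) (bd_one hx frob hfrob hr hirr) hA τ
    (P := fun v => P (x v)) (C := M ^ (vals A).card) (Q := (∫ g, P g ∂μ) / 2)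
    (by positivity) (by positivity) ?_ (fun v => hPabs (x v)) ?_
  · intro v σ hσ
    rw [tn_eq]
    obtain ⟨z, hz, hzd⟩ := hd1 v σ hσ
    have h1 : P (x v) = d ((rep r).character (x v)) z ^ 2 *
        ∏ y ∈ (vals A).erase z, d ((rep r).character (x v)) y ^ 2 :=
      (Finset.mul_prod_erase _ _ hz).symm
    rw [h1, mul_comm]
    refine mul_le_mul ?_ (pow_le_pow_left₀ (hd0 _ _) hzd 2) (sq_nonneg _) (by positivity)
    refine (Finset.prod_le_prod (fun y _ => sq_nonneg _) fun y hy =>
      hfac (x v) y (Finset.mem_of_mem_erase hy)).trans ?_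
    rw [Finset.prod_const]
    exact pow_le_pow_right₀ hM1 (Finset.card_le_card (Finset.erase_subset _ _))
  · filter_upwards [hmean.eventually_const_lt (by linarith :
      (∫ g, P g ∂μ) / 2 < ∫ g, P g ∂μ)] with ε hε
    exact hε.le

omit [CompactSpace G] [MeasurableSpace G] [BorelSpace G] in
/-- a continuous function with finitely many values is constant on the identity component -/
theorem const_on {f : G → ℝ} (hf : Continuous f) (hfin : (Set.range f).Finite) {g : G}
    (hg : g ∈ Subgroup.connectedComponentOfOne G) : f g = f 1 := by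
  have h1 : IsPreconnected (f '' (connectedComponent (1 : G))) :=
    isPreconnected_connectedComponent.image f hf.continuousOn
  by_contra hne
  have h2 : (f '' (connectedComponent (1 : G))).Nontrivial :=
    ⟨f g, ⟨g, hg, rfl⟩, f 1, ⟨1, mem_connectedComponent, rfl⟩, hne⟩
  exact (h1.infinite_of_nontrivial h2) (hfin.subset (Set.image_subset_range _ _))

include hx hr in
/-- **The strict inequality for the sizes.** -/
theorem size_lt (hirr : (rep r).IsIrreducible) {A : ArtinRep K} (hA : A.ρ.IsIrreducible) (τ : ℝ)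
    (hmv : Moves r τ) :
    ∃ c : ℝ, c < 1 ∧ ∀ᶠ ε : ℝ in 𝓝[>] 0, |(sy x frob hfrob r).x A τ ε| ≤ c := by
  classical
  have hn := dim_pos r hirr
  have h1 : (rep r).character 1 = n := by
    rw [Representation.char_one]
    simp
  unfold Moves at hmv
  by_cases hτ : τ = 0
  · rw [if_pos hτ] at hmv
    refine core hx frob hfrob hr hirr hA τ (fun y z => ‖y - z‖) (fun z => by fun_prop)
      (fun _ _ => norm_nonneg _) (fun y z => norm_sub_le y z) ?_ ?_
    · intro v σ hσ
      refine ⟨_, mem_vals A (frob v)⁻¹ hσ, ?_⟩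
      have h2 : vv frob A τ v = conj (A.χ (frob v)⁻¹) := by
        rw [vv, hτ]
        simp
      rw [h2, sub_neg_eq_add]
    · by_contra hcon
      push Not at hcon
      obtain ⟨g, hg, hgr⟩ := hmv
      apply hgr
      apply Subtype.ext
      refine eq_one_of_trace r ?_
      have hre : (Set.range fun g => ((rep r).character g).re).Finite := by
        refine ((vals A).finite_toSet.image Complex.re).subset ?_
        rintro _ ⟨g, rfl⟩
        obtain ⟨z, hz, hz0⟩ := hcon g
        rw [norm_eq_zero, sub_eq_zero] at hz0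
        exact ⟨z, hz, by simp only; rw [hz0]⟩
      have him : (Set.range fun g => ((rep r).character g).im).Finite := by
        refine ((vals A).finite_toSet.image Complex.im).subset ?_
        rintro _ ⟨g, rfl⟩
        obtain ⟨z, hz, hz0⟩ := hcon g
        rw [norm_eq_zero, sub_eq_zero] at hz0
        exact ⟨z, hz, by simp only; rw [hz0]⟩
      have e1 := const_on (f := fun g => ((rep r).character g).re)
        (Complex.continuous_re.comp (cont_char r hr)) hre hg
      have e2 := const_on (f := fun g => ((rep r).character g).im)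
        (Complex.continuous_im.comp (cont_char r hr)) him hg
      rw [← h1]
      exact Complex.ext e1 e2
  · rw [if_neg hτ] at hmv
    refine core hx frob hfrob hr hirr hA τ (fun y z => |‖y‖ - ‖z‖|) (fun z => by fun_prop)
      (fun _ _ => abs_nonneg _) (fun y z => ?_) ?_ ?_
    · rw [abs_le]
      constructor <;> linarith [norm_nonneg y, norm_nonneg z]
    · intro v σ hσ
      refine ⟨_, mem_vals A (frob v)⁻¹ hσ, ?_⟩
      have h2 : ‖-((σ : ℂ) * conj (A.χ (frob v)⁻¹))‖ = ‖-((σ : ℂ) * vv frob A τ v)‖ := by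
        rw [norm_neg, norm_neg, norm_mul, norm_mul, vv, Complex.norm_conj, Complex.norm_conj,
          norm_mul, norm_cpow_I (nm_pos v), one_mul]
      rw [h2]
      have h3 := abs_norm_sub_norm_le ((rep r).character (x v)) (-((σ : ℂ) * vv frob A τ v))
      rwa [sub_neg_eq_add] at h3
    · by_contra hcon
      push Not at hcon
      obtain ⟨g, hg, hgr⟩ := hmv
      have hre : (Set.range fun g => ‖(rep r).character g‖).Finite := by
        refine ((vals A).finite_toSet.image norm).subset ?_
        rintro _ ⟨g, rfl⟩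
        obtain ⟨z, hz, hz0⟩ := hcon g
        rw [abs_eq_zero, sub_eq_zero] at hz0
        exact ⟨z, hz, hz0.symm⟩
      have e1 := const_on (f := fun g => ‖(rep r).character g‖)
        (continuous_norm.comp (cont_char r hr)) hre hg
      rw [h1, Complex.norm_natCast] at e1
      obtain ⟨z, hz⟩ := scalar_of_trace r hn e1
      exact hgr z hz

end

end Pool.Agent.W353.ST
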