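import Pool.Agent.W353.ST.Rep
import Pool.Agent.W353.AT.Defs
import Pool.Agent.W385.GA.Defs

/-!
# The Sato–Tate conjecture over extension fields: definitions

`G` is a compact group, the Sato–Tate group `ST(A)` of an abelian variety `A` over the number field `K`,
and `x v ∈ G`, for the primes `v` of `K`, is in the conjugacy class of `v` (at the finitely many primes
where there is no such class, `x v` is an arbitrary element of `G`).
-/

set_option autoImplicit false

namespace Pool.Agent.W353.ST

open NumberField IsDedekindDomain Filter Topology Polynomial MeasureTheory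
open Matrix (unitaryGroup)
open Pool.Agent.W353.AT (IsFrobeniusElement)
open Pool.Agent.W385.GA (ArtinRep)

/-- The function `f` on the primes of the number field `F` has the mean value `m`, in the sense of the
analytic density: `∑ f(v) q_v^{-s} / ∑ q_v^{-s}` tends to `m` for real `s → 1+`. -/
def HasMean {F : Type} [Field F] [NumberField F] (f : HeightOneSpectrum (𝓞 F) → ℂ) (m : ℂ) : Prop :=
  Tendsto (fun s : ℝ =>
    (∑' v : HeightOneSpectrum (𝓞 F), f v * (((Ideal.absNorm v.asIdeal : ℝ) ^ (-s) : ℝ) : ℂ)) /
      ∑' v : HeightOneSpectrum (𝓞 F), (((Ideal.absNorm v.asIdeal : ℝ) ^ (-s) : ℝ) : ℂ))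
    (𝓝[>] 1) (𝓝 m)

/-- The function `f` on the primes of the number field `F` has the mean value `m`, in the sense of the
natural density: the averages over the primes of norm at most `N` tend to `m` for `N → ∞`. -/
def HasNaturalMean {F : Type} [Field F] [NumberField F] (f : HeightOneSpectrum (𝓞 F) → ℂ)
    (m : ℂ) : Prop :=
  Tendsto (fun N : ℕ =>
    (∑ᶠ v ∈ {v : HeightOneSpectrum (𝓞 F) | Ideal.absNorm v.asIdeal ≤ N}, f v) /
      ({v : HeightOneSpectrum (𝓞 F) | Ideal.absNorm v.asIdeal ≤ N}.ncard : ℂ)) atTop (𝓝 m)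

/-- The conjugacy classes of the `x v` are equidistributed for the (Haar) measure `μ` on `G`, in the
sense of the analytic density. -/
def Equidistributed {F : Type} [Field F] [NumberField F] {G : Type} [Group G] [TopologicalSpace G]
    [MeasurableSpace G] (μ : Measure G) (x : HeightOneSpectrum (𝓞 F) → G) : Prop :=
  ∀ f : G → ℂ, Continuous f → (∀ g h, f (h * g * h⁻¹) = f g) →
    HasMean (fun v => f (x v)) (∫ g, f g ∂μ)

/-- On the identity component `G°` of `G`, the representation `r` is not trivial, if `τ = 0`, and is not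
given by scalars, if `τ ≠ 0`.  (If `G°` is semisimple, for example `USp(2g)`, this is the same.) -/
def Moves {G : Type} [Group G] [TopologicalSpace G] [IsTopologicalGroup G] {n : ℕ}
    (r : G →* unitaryGroup (Fin n) ℂ) (τ : ℝ) : Prop :=
  if τ = 0 then ∃ g ∈ Subgroup.connectedComponentOfOne G, r g ≠ 1
  else ∃ g ∈ Subgroup.connectedComponentOfOne G, ∀ z : ℂ,
    (r g : Matrix (Fin n) (Fin n) ℂ) ≠ z • (1 : Matrix (Fin n) (Fin n) ℂ)

/-- `r` is a continuous irreducible unitary representation of `G`, which is trivial or satisfies `Moves`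
for all `τ` in `T`. -/
def IsTestRep (T : Set ℝ) {G : Type} [Group G] [TopologicalSpace G] [IsTopologicalGroup G] {n : ℕ}
    (r : G →* unitaryGroup (Fin n) ℂ) : Prop :=
  Continuous r ∧ (rep r).IsIrreducible ∧ ((∀ g, r g = 1) ∨ ∀ τ ∈ T, Moves r τ)

/-- `f` is a uniform limit of linear combinations of characters of representations as in `IsTestRep`.
If `G` is connected, and `T = {0}` or `G` is semisimple, then all continuous class functions on `G` are
such, by the theorem of Peter and Weyl. -/
def IsCharacterLimit (T : Set ℝ) {G : Type} [Group G] [TopologicalSpace G] [IsTopologicalGroup G]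
    (f : G → ℂ) : Prop :=
  ∀ ε : ℝ, 0 < ε → ∃ (k : ℕ) (n : Fin k → ℕ) (r : ∀ i, G →* unitaryGroup (Fin (n i)) ℂ)
    (c : Fin k → ℂ), (∀ i, IsTestRep T (r i)) ∧
    ∀ g, ‖f g - ∑ i, c i * (rep (r i)).character g‖ ≤ ε

/-- `det(1 - z · a ⊗ b)⁻¹` -/
noncomputable def eulerFactor {V W : Type} [AddCommGroup V] [Module ℂ V] [AddCommGroup W]
    [Module ℂ W] (a : Module.End ℂ V) (b : Module.End ℂ W) (z : ℂ) : ℂ :=
  (LinearMap.det (1 - z • (TensorProduct.map a b : Module.End ℂ (TensorProduct ℂ V W))))⁻¹

section
variable {K : Type} [Field K] [NumberField K]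

/-- The representation `A` is unramified at `v`: the inertia groups of the maximal ideals above `v`
act trivially. -/
def Unramified (A : ArtinRep K) (v : HeightOneSpectrum (𝓞 K)) : Prop :=
  ∀ Q : Ideal (𝓞 (AlgebraicClosure K)), Q.IsMaximal →
    Q.comap (algebraMap (𝓞 K) (𝓞 (AlgebraicClosure K))) = v.asIdeal →
    ∀ g : Gal(AlgebraicClosure K/K), (∀ x : 𝓞 (AlgebraicClosure K), g • x - x ∈ Q) → A.ρ g = 1

variable {G : Type} [Group G] {n : ℕ}

open Classical in
/-- The Euler product `L(r ⊗ A, s)`, with the factor `det(1 - r(x_v) ⊗ A(Frob_v) q_v^{-s})⁻¹` at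
`v ∉ S`, where `Frob_v` is the geometric Frobenius, the inverse of `frob v`; at the primes of the finite
set `S` the factor is `B_v(q_v^{-s})⁻¹` for some polynomial `B_v`. -/
noncomputable def LFun (x : HeightOneSpectrum (𝓞 K) → G)
    (frob : HeightOneSpectrum (𝓞 K) → Gal(AlgebraicClosure K/K)) (r : G →* unitaryGroup (Fin n) ℂ)
    (A : ArtinRep K) (S : Finset (HeightOneSpectrum (𝓞 K)))
    (B : HeightOneSpectrum (𝓞 K) → ℂ[X]) (s : ℂ) : ℂ :=
  ∏' v : HeightOneSpectrum (𝓞 K),
    if v ∈ S then ((B v).eval (((Ideal.absNorm v.asIdeal : ℕ) : ℂ) ^ (-s)))⁻¹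
    else eulerFactor (rep r (x v)) (A.ρ (frob v)⁻¹) (((Ideal.absNorm v.asIdeal : ℕ) : ℂ) ^ (-s))

/-- `L` is the `L`-function of `r ⊗ A`: its Euler product, with polynomials as factors at a finite set
of primes, which contains the primes where `A` is ramified; these factors have no pole at `1 + iτ`. -/
def IsLFunction (x : HeightOneSpectrum (𝓞 K) → G)
    (frob : HeightOneSpectrum (𝓞 K) → Gal(AlgebraicClosure K/K)) (r : G →* unitaryGroup (Fin n) ℂ)
    (A : ArtinRep K) (τ : ℝ) (L : ℂ → ℂ) : Prop :=
  ∃ (S : Finset (HeightOneSpectrum (𝓞 K))) (B : HeightOneSpectrum (𝓞 K) → ℂ[X]),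
    (∀ v, v ∉ S → Unramified A v) ∧
    (∀ v ∈ S, (B v).eval (((Ideal.absNorm v.asIdeal : ℕ) : ℂ) ^ (-(1 + τ * Complex.I : ℂ))) ≠ 0) ∧
    L = LFun x frob r A S B

/-- `Λ` is a meromorphic continuation of `L` to a neighbourhood of `1 + iτ`. -/
def IsContinuation (τ : ℝ) (L Λ : ℂ → ℂ) : Prop :=
  MeromorphicAt Λ (1 + τ * Complex.I) ∧
    ∀ᶠ s in 𝓝 (1 + τ * Complex.I : ℂ), 1 < s.re → Λ s = L s

/-- **Automatic holomorphy and non-vanishing on the line `Re s = 1`.**  Let `r` be a continuous
irreducible unitary representation of `G`, `A` an irreducible Artin representation of `K`, `τ` real and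
`L` the `L`-function of `r ⊗ A`; let `r` be nontrivial on `G°` (if `τ ≠ 0`: not given by scalars).
(1) There is `c < 1` with `|log |L(1 + iτ + ε)|| ≤ c log(1/ε)` for all small `ε > 0` (no continuation is
assumed here).  (2) Every meromorphic continuation of `L` to a neighbourhood of `1 + iτ` has the
order `0` at `1 + iτ`: it is holomorphic there (up to the value at the point) and different from `0`. -/
def RegularOnEdge [TopologicalSpace G] [IsTopologicalGroup G] (x : HeightOneSpectrum (𝓞 K) → G)
    (frob : HeightOneSpectrum (𝓞 K) → Gal(AlgebraicClosure K/K)) : Prop :=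
  ∀ (n : ℕ) (r : G →* unitaryGroup (Fin n) ℂ), Continuous r → (rep r).IsIrreducible →
    ∀ A : ArtinRep K, A.ρ.IsIrreducible → ∀ τ : ℝ, Moves r τ → ∀ L, IsLFunction x frob r A τ L →
      (∃ c : ℝ, c < 1 ∧ ∀ᶠ ε : ℝ in 𝓝[>] 0,
        |Real.log ‖L (1 + τ * Complex.I + ε)‖| ≤ c * Real.log (1 / ε)) ∧
      ∀ Λ, IsContinuation τ L Λ → meromorphicOrderAt Λ (1 + τ * Complex.I) = 0

/-- The conjugacy classes over `F ⊇ K`: for a prime `w` of `F` above the prime `v` of `K`, of the residue
degree `e`, the class of `w` is the class of `(x v)^e`. -/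
def IsBaseChange {F : Type} [Field F] [NumberField F] [Algebra K F]
    (x : HeightOneSpectrum (𝓞 K) → G) (y : HeightOneSpectrum (𝓞 F) → G) : Prop :=
  ∀ (w : HeightOneSpectrum (𝓞 F)) (v : HeightOneSpectrum (𝓞 K)) (e : ℕ),
    v.asIdeal = w.asIdeal.comap (algebraMap (𝓞 K) (𝓞 F)) →
    Ideal.absNorm w.asIdeal = Ideal.absNorm v.asIdeal ^ e → ∃ h : G, y w = h * x v ^ e * h⁻¹

/-- The Artin representation `A` of `K` occurs in the permutation representation of the absolute Galois
group of `K` on the `K`-embeddings of `F`: it has a nonzero vector fixed by the absolute Galois group of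
a conjugate of `F` over `K`. -/
def Occurs (F : Type) [Field F] [Algebra K F] (A : ArtinRep K) : Prop :=
  ∃ (i : F →ₐ[K] AlgebraicClosure K) (z : Fin A.n → ℂ), z ≠ 0 ∧
    ∀ g ∈ i.fieldRange.fixingSubgroup, A.ρ g z = z

/-- For all continuous irreducible unitary representations `r` of `G` that satisfy `Moves` for all
`τ` in `T`, all irreducible Artin representations `A` of `K` that occur in the permutation representation
for `F`, and all `τ` in `T`, the `L`-function of `r ⊗ A` has a meromorphic continuation to some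
neighbourhood of the point `1 + iτ`.  Nothing is assumed about its poles and zeros. -/
def HasContinuations [TopologicalSpace G] [IsTopologicalGroup G]
    (x : HeightOneSpectrum (𝓞 K) → G)
    (frob : HeightOneSpectrum (𝓞 K) → Gal(AlgebraicClosure K/K)) (F : Type) [Field F] [Algebra K F]
    (T : Set ℝ) : Prop :=
  ∀ (n : ℕ) (r : G →* unitaryGroup (Fin n) ℂ), Continuous r → (rep r).IsIrreducible →
    (∀ τ ∈ T, Moves r τ) → ∀ A : ArtinRep K, A.ρ.IsIrreducible → Occurs F A →
    ∀ τ ∈ T, ∃ L Λ, IsLFunction x frob r A τ L ∧ IsContinuation τ L Λ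

/-- **From `K` to all extension fields, analytic density.**  Let `F ⊇ K` be a number field, such that the
`L`-functions above have meromorphic continuations to neighbourhoods of the point `1`.  Then for
every `f` as in `IsCharacterLimit` the mean value of `f(y_w)` over the primes `w` of `F` is the integral
of `f`, in the sense of the analytic density. -/
def AnalyticAbove [TopologicalSpace G] [IsTopologicalGroup G] [MeasurableSpace G]
    (μ : Measure G) (x : HeightOneSpectrum (𝓞 K) → G)
    (frob : HeightOneSpectrum (𝓞 K) → Gal(AlgebraicClosure K/K)) : Prop :=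
  ∀ (F : Type) [Field F] [NumberField F] [Algebra K F], HasContinuations x frob F {0} →
    ∀ y : HeightOneSpectrum (𝓞 F) → G, IsBaseChange x y →
      ∀ f : G → ℂ, IsCharacterLimit {0} f → HasMean (fun w => f (y w)) (∫ g, f g ∂μ)

/-- **From `K` to all extension fields, natural density.**  Let `F ⊇ K` be a number field, such that the
`L`-functions above have meromorphic continuations to neighbourhoods of all points of the line
`Re s = 1`.  Then for every `f` as in `IsCharacterLimit` the mean value of `f(y_w)` over the primes `w` of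
`F` is the integral of `f`, in the sense of the natural density. -/
def NaturalAbove [TopologicalSpace G] [IsTopologicalGroup G] [MeasurableSpace G]
    (μ : Measure G) (x : HeightOneSpectrum (𝓞 K) → G)
    (frob : HeightOneSpectrum (𝓞 K) → Gal(AlgebraicClosure K/K)) : Prop :=
  ∀ (F : Type) [Field F] [NumberField F] [Algebra K F], HasContinuations x frob F Set.univ →
    ∀ y : HeightOneSpectrum (𝓞 F) → G, IsBaseChange x y →
      ∀ f : G → ℂ, IsCharacterLimit Set.univ f → HasNaturalMean (fun w => f (y w)) (∫ g, f g ∂μ)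

end

end Pool.Agent.W353.ST
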