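import Mathlib

/-! Unitary representations as representations on `ℂⁿ`. -/

set_option autoImplicit false

namespace Pool.Agent.W353.ST

open Matrix

/-- The representation of `G` on `ℂⁿ` given by a homomorphism from `G` to the unitary group `U(n)`. -/
noncomputable def rep {G : Type} [Group G] {n : ℕ} (r : G →* unitaryGroup (Fin n) ℂ) :
    Representation ℂ G (Fin n → ℂ) where
  toFun g := Matrix.toLin' (r g : Matrix (Fin n) (Fin n) ℂ)
  map_one' := by
    rw [map_one]
    exact Matrix.toLin'_one
  map_mul' a b := by
    rw [map_mul]
    exact Matrix.toLin'_mul _ _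

end Pool.Agent.W353.ST
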