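import Pool.Agent.W353.ST.Bridge

/-! Strict inequalities for the sizes. -/

set_option autoImplicit false

namespace Pool.Agent.W353.ST

open Complex Filter Topology NumberField IsDedekindDomain
  Pool.Agent.W401.Cheb Pool.Agent.W540.BE Pool.Agent.W385.GA
open Pool.Agent.H341R2 (lam lam_tendsto)

section
variable {F : Type} [Field F] [NumberField F]

/-- **The strict inequality.** -/
theorem strict (s : Sy F) (hκ : s.Bd 1) {A : ArtinRep F} (hA : A.ρ.IsIrreducible) (τ : ℝ)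
    {P : HeightOneSpectrum (𝓞 F) → ℝ} {C Q : ℝ} (hC : 0 < C) (hQ : 0 < Q)
    (hP : ∀ v, ∀ σ : ℝ, σ = 1 ∨ σ = -1 →
      P v ≤ C * ‖tn s.t s.w s.S₀ v + (σ : ℂ) * vv s.frob A τ v‖ ^ 2)
    {Bp : ℝ} (hPb : ∀ v, |P v| ≤ Bp) (hPQ : ∀ᶠ ε : ℝ in 𝓝[>] 0, Q ≤ EP (nm F) ε P / lam ε) :
    ∃ c : ℝ, c < 1 ∧ ∀ᶠ ε : ℝ in 𝓝[>] 0, |s.x A τ ε| ≤ c := by
  classical
  have hN : NormSys (nm F) := normSys
  have key : ∀ σ : ℝ, σ = 1 ∨ σ = -1 → ∀ᶠ ε : ℝ in 𝓝[>] 0,
      -(σ * s.x A τ ε) ≤ 1 - Q / (4 * C) := by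
    intro σ hσ
    have hη : 0 < Q / (4 * C) := by positivity
    filter_upwards [s.expand_le ({()} : Finset Unit) (fun _ => A) (fun _ => τ) 1 hη,
      hκ _ hη, hPQ, lam_tendsto.eventually_gt_atTop 0, self_mem_nhdsWithin] with ε h1 h2 h3 h4 h5
    have hε : (0 : ℝ) < ε := h5
    have h6 := h1 (fun _ => σ) (fun _ _ => by
      rcases hσ with h | h <;> rw [h] <;> simp)
    simp only [Finset.sum_singleton, if_true] at h6
    rw [homDim_irr hA] at h6
    have hσ2 : σ * σ = 1 := by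
      rcases hσ with h | h <;> rw [h] <;> norm_num
    rw [hσ2] at h6
    -- the lower bound
    have hb : ∀ v, |C * ‖tn s.t s.w s.S₀ v + (σ : ℂ) * vv s.frob A τ v‖ ^ 2| ≤
        C * (s.D + A.n) ^ 2 := by
      intro v
      rw [abs_of_nonneg (by positivity)]
      refine mul_le_mul_of_nonneg_left ?_ hC.le
      refine pow_le_pow_left₀ (norm_nonneg _) ?_ 2
      refine (norm_add_le _ _).trans (add_le_add (norm_tn_le s.hD s.ht v) ?_)
      rw [norm_mul, Complex.norm_real, Real.norm_eq_abs]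
      have : |σ| = 1 := by rcases hσ with h | h <;> rw [h] <;> simp
      rw [this, one_mul]
      exact norm_vv_le A τ v
    have h7 : EP (nm F) ε P ≤ C * EP (nm F) ε fun v =>
        ‖tn s.t s.w s.S₀ v + (σ : ℂ) * vv s.frob A τ v‖ ^ 2 := by
      rw [← EP_const_mul]
      exact Pool.Agent.W353.L1.EP_mono hPb hb (fun v => hP v σ hσ) hε
    have h8 : Q ≤ C * ((EP (nm F) ε fun v =>
        ‖tn s.t s.w s.S₀ v + (σ : ℂ) * vv s.frob A τ v‖ ^ 2) / lam ε) := by
      refine h3.trans ?_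
      rw [← mul_div_assoc]
      exact div_le_div_of_nonneg_right h7 h4.le
    have h9 := mul_le_mul_of_nonneg_left h6 hC.le
    have h10 : Q ≤ C * (s.u ε + 2 * (σ * s.x A τ ε) + 1 * ((1 : ℕ) : ℝ) + Q / (4 * C)) :=
      h8.trans h9
    have h11 : Q ≤ C * (1 + Q / (4 * C) + 2 * (σ * s.x A τ ε) + 1 + Q / (4 * C)) := by
      refine h10.trans (mul_le_mul_of_nonneg_left ?_ hC.le)
      push_cast
      linarith
    have h12 : C * (Q / (4 * C)) = Q / 4 := by
      field_simp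
    have h13 : C * -(σ * s.x A τ ε) ≤ C * (1 - Q / (4 * C)) := by
      rw [mul_sub, h12]
      have e : C * (1 + Q / (4 * C) + 2 * (σ * s.x A τ ε) + 1 + Q / (4 * C)) =
          2 * C + 2 * (C * (σ * s.x A τ ε)) + 2 * (C * (Q / (4 * C))) := by ring
      rw [e, h12] at h11
      have e2 : C * -(σ * s.x A τ ε) = -(C * (σ * s.x A τ ε)) := by ring
      rw [e2]
      linarith
    exact le_of_mul_le_mul_left h13 hC
  refine ⟨1 - Q / (4 * C), by
    have : 0 < Q / (4 * C) := by positivity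
    linarith, ?_⟩
  filter_upwards [key 1 (Or.inl rfl), key (-1) (Or.inr rfl)] with ε h1 h2
  rw [abs_le]
  constructor <;> linarith

end

end Pool.Agent.W353.ST
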